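import Mathlib

/-!
# Profinite coarse structures on the integers are not word metric structures

The compact subsets of `(ℤ, τ_Q)` are not covered by countably many of them up to translation, so
the coarse structure `E_Q` is not countably generated, while every `E_Cay(S)` is.
-/

set_option autoImplicit false

namespace Pool.Agent.Results.MP_59b615_al.NotCoarselyEquivalent

open Filter Topology Set
open scoped Pointwise

/-! ## The statement -/

/-- `Q*`: the positive integers all of whose prime factors lie in `Q`. -/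
def Qstar (Q : Set ℕ) : Set ℕ := {m | 0 < m ∧ ∀ p : ℕ, p.Prime → p ∣ m → p ∈ Q}

theorem one_mem (Q : Set ℕ) : 1 ∈ Qstar Q :=
  ⟨one_pos, fun _ hp h => absurd (Nat.dvd_one.1 h) hp.one_lt.ne'⟩

theorem mul_mem {Q : Set ℕ} {m n : ℕ} (hm : m ∈ Qstar Q) (hn : n ∈ Qstar Q) :
    m * n ∈ Qstar Q :=
  ⟨Nat.mul_pos hm.1 hn.1, fun p hp h => (hp.dvd_mul.1 h).elim (hm.2 p hp) (hn.2 p hp)⟩

/-- The topology `τ_Q` on `ℤ`: a set is open when it contains, with each of its points `x`, a coset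
`x + m ℤ` with `m ∈ Q*`; in other words the cosets `a + m ℤ`, `m ∈ Q*`, form a basis. -/
@[reducible] def tau (Q : Set ℕ) : TopologicalSpace ℤ where
  IsOpen U := ∀ x ∈ U, ∃ m ∈ Qstar Q, ∀ y : ℤ, (m : ℤ) ∣ y - x → y ∈ U
  isOpen_univ := fun x _ => ⟨1, one_mem Q, fun y _ => Set.mem_univ y⟩
  isOpen_inter := by
    rintro U V hU hV x ⟨hx, hx'⟩
    obtain ⟨m, hm, h⟩ := hU x hx
    obtain ⟨n, hn, h'⟩ := hV x hx'
    refine ⟨m * n, mul_mem hm hn, fun y hy => ⟨h y ?_, h' y ?_⟩⟩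
    · exact (Int.natCast_dvd_natCast.2 (Nat.dvd_mul_right m n)).trans hy
    · exact (Int.natCast_dvd_natCast.2 (Nat.dvd_mul_left n m)).trans hy
  isOpen_sUnion := by
    rintro s hs x ⟨U, hU, hx⟩
    obtain ⟨m, hm, h⟩ := hs U hU x hx
    exact ⟨m, hm, fun y hy => ⟨U, hU, h y hy⟩⟩

/-- The coarse structure `E_Q`, as the collection of its uniformly bounded families. -/
def profinite (Q : Set ℕ) : Set (Set (Set ℤ)) :=
  {F | ∃ K : Set ℤ, @IsCompact ℤ (tau Q) K ∧ ∀ A ∈ F, ∃ k : ℤ, A ⊆ (fun x => k + x) '' K}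

/-- The word metric `d_S`: the least number of elements of `S ∪ (-S)` summing to `n - m`,
`∞` if there is none. -/
noncomputable def wordDist (S : Set ℤ) (n m : ℤ) : ℕ∞ :=
  ⨅ (l : List ℤ) (_ : (∀ s ∈ l, s ∈ S ∪ -S) ∧ l.sum = n - m), (l.length : ℕ∞)

/-- The coarse structure `E_Cay(S)`, as the collection of its uniformly bounded families. -/
def cayley (S : Set ℤ) : Set (Set (Set ℤ)) :=
  {F | ∃ N : ℕ, ∀ A ∈ F, ∀ x ∈ A, ∀ y ∈ A, wordDist S x y ≤ (N : ℕ∞)}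

/-- `f` is controlled: it sends uniformly bounded families to uniformly bounded families. -/
def Controlled (E E' : Set (Set (Set ℤ))) (f : ℤ → ℤ) : Prop :=
  ∀ F ∈ E, {B | ∃ A ∈ F, B = f '' A} ∈ E'

/-- `f` and `f'` are close: the family of the sets `{f x, f' x}` is uniformly bounded. -/
def Close (E : Set (Set (Set ℤ))) (f f' : ℤ → ℤ) : Prop :=
  {A | ∃ x : ℤ, A = {f x, f' x}} ∈ E

/-- `f` is a coarse equivalence. -/
def IsCoarseEquivalence (E E' : Set (Set (Set ℤ))) (f : ℤ → ℤ) : Prop :=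
  Controlled E E' f ∧ ∃ g : ℤ → ℤ, Controlled E' E g ∧ Close E (g ∘ f) id ∧ Close E' (f ∘ g) id

/-- `f` is a coarse isomorphism of coarse groups: a coarse equivalence such that `f (a + b)` is
uniformly close to `f a + f b`. -/
def IsCoarseIsomorphism (E E' : Set (Set (Set ℤ))) (f : ℤ → ℤ) : Prop :=
  IsCoarseEquivalence E E' f ∧ {A | ∃ a b : ℤ, A = {f (a + b), f a + f b}} ∈ E'

/-! ## Compact sets for `τ_Q` -/

theorem isOpen_tau {Q : Set ℕ} {U : Set ℤ} :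
    IsOpen[tau Q] U ↔ ∀ x ∈ U, ∃ m ∈ Qstar Q, ∀ y : ℤ, (m : ℤ) ∣ y - x → y ∈ U := Iff.rfl

theorem isOpen_coset {Q : Set ℕ} {m : ℕ} (hm : m ∈ Qstar Q) (a : ℤ) :
    IsOpen[tau Q] {y : ℤ | (m : ℤ) ∣ y - a} := by
  rw [isOpen_tau]
  intro x hx
  refine ⟨m, hm, fun y hy => ?_⟩
  have : y - a = (y - x) + (x - a) := by ring
  show (m : ℤ) ∣ _
  rw [this]
  exact dvd_add hy hx

theorem isClosed_coset {Q : Set ℕ} {m : ℕ} (hm : m ∈ Qstar Q) (a : ℤ) :
    IsClosed[tau Q] {y : ℤ | (m : ℤ) ∣ y - a} := by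
  rw [← @isOpen_compl_iff ℤ _ (tau Q), isOpen_tau]
  intro x hx
  refine ⟨m, hm, fun y hy hc => hx ?_⟩
  have : x - a = (y - a) - (y - x) := by ring
  show (m : ℤ) ∣ _
  rw [this]
  exact dvd_sub hc hy

theorem isTopologicalAddGroup (Q : Set ℕ) : @IsTopologicalAddGroup ℤ (tau Q) _ := by
  let : TopologicalSpace ℤ := tau Q
  have hadd : Continuous fun p : ℤ × ℤ => p.1 + p.2 := by
    refine ⟨fun U hU => ?_⟩
    rw [isOpen_prod_iff]
    intro a b hab
    obtain ⟨m, hm, h⟩ := isOpen_tau.1 hU (a + b) hab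
    refine ⟨{y | (m : ℤ) ∣ y - a}, {y | (m : ℤ) ∣ y - b}, isOpen_coset hm a, isOpen_coset hm b,
      by simp, by simp, ?_⟩
    rintro ⟨x, y⟩ ⟨hx, hy⟩
    refine h _ ?_
    have : x + y - (a + b) = (x - a) + (y - b) := by ring
    show (m : ℤ) ∣ x + y - (a + b)
    rw [this]
    exact dvd_add hx hy
  have hneg : Continuous fun x : ℤ => -x := by
    refine ⟨fun U hU => ?_⟩
    refine isOpen_tau.2 fun a ha => ?_
    obtain ⟨m, hm, h⟩ := isOpen_tau.1 hU (-a) ha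
    refine ⟨m, hm, fun y hy => h _ ?_⟩
    have : -y - -a = -(y - a) := by ring
    rw [this]
    exact (dvd_neg).2 hy
  exact { continuous_add := hadd, continuous_neg := hneg }

theorem compact_add_sub {A : Type} [AddCommGroup A] (t : TopologicalSpace A)
    (h : @IsTopologicalAddGroup A t _) {K L : Set A} (hK : @IsCompact A t K)
    (hL : @IsCompact A t L) : @IsCompact A t (K + (L - L)) := by
  let := t
  rw [sub_eq_add_neg L L]
  exact hK.add (hL.add hL.neg)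

theorem compact_insert_range {A : Type} (t : TopologicalSpace A) (x : ℕ → A) (a : A)
    (h : Tendsto x atTop (@nhds A t a)) : @IsCompact A t (insert a (Set.range x)) := by
  let := t
  exact h.isCompact_insert_range

/-- A `τ_Q`-compact set contains no coset `a + m ℤ`. -/
theorem exists_notMem {Q : Set ℕ} (hQ : Q.Nonempty) (hP : ∀ p ∈ Q, p.Prime) {K : Set ℤ}
    (hK : @IsCompact ℤ (tau Q) K) {m : ℕ} (hm : m ∈ Qstar Q) (a : ℤ) :
    ∃ x : ℤ, (m : ℤ) ∣ x - a ∧ x ∉ K := by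
  by_contra hcon
  push Not at hcon
  obtain ⟨p, hp⟩ := hQ
  have hpp := hP p hp
  have hpQ : p ∈ Qstar Q :=
    ⟨hpp.pos, fun q hq hqp => by rwa [(Nat.prime_dvd_prime_iff_eq hq hpp).1 hqp]⟩
  obtain ⟨e, he⟩ := exists_surjective_nat ℤ
  -- moduli
  have hmod : ∀ i : ℕ, m * p ^ i ∈ Qstar Q := by
    intro i
    induction i with
    | zero => simpa using hm
    | succ i ih =>
      have := mul_mem ih hpQ
      rwa [pow_succ, ← mul_assoc]
  have step : ∀ (i : ℕ) (b : ℤ), ∃ b' : ℤ, ((m * p ^ i : ℕ) : ℤ) ∣ b' - b ∧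
      ¬ ((m * p ^ (i + 1) : ℕ) : ℤ) ∣ e i - b' := by
    intro i b
    by_cases h : ((m * p ^ (i + 1) : ℕ) : ℤ) ∣ e i - b
    · refine ⟨b + (m * p ^ i : ℕ), by simp, fun h' => ?_⟩
      have h2 : ((m * p ^ (i + 1) : ℕ) : ℤ) ∣ ((m * p ^ i : ℕ) : ℤ) := by
        have := dvd_sub h h'
        have e1 : e i - b - (e i - (b + ((m * p ^ i : ℕ) : ℤ))) = ((m * p ^ i : ℕ) : ℤ) := by ring
        rwa [e1] at this
      have h3 : m * p ^ (i + 1) ∣ m * p ^ i := Int.natCast_dvd_natCast.1 h2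
      have h4 := Nat.le_of_dvd (hmod i).1 h3
      have h5 : m * p ^ (i + 1) = (m * p ^ i) * p := by ring
      have h6 := (hmod i).1
      have h7 := hpp.two_le
      nlinarith
    · exact ⟨b, by simp, h⟩
  choose! nx hnx using step
  let b : ℕ → ℤ := fun i => Nat.rec a (fun i b => nx i b) i
  have hb : ∀ i, b (i + 1) = nx i (b i) := fun i => rfl
  let C : ℕ → Set ℤ := fun i => {y : ℤ | ((m * p ^ i : ℕ) : ℤ) ∣ y - b i}
  have hCanti : ∀ i, C (i + 1) ⊆ C i := by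
    intro i y hy
    have h1 : ((m * p ^ i : ℕ) : ℤ) ∣ y - b (i + 1) :=
      (Int.natCast_dvd_natCast.2 ⟨p, by ring⟩).trans hy
    have h2 := (hnx i (b i)).1
    rw [← hb] at h2
    have : y - b i = (y - b (i + 1)) + (b (i + 1) - b i) := by ring
    show ((m * p ^ i : ℕ) : ℤ) ∣ y - b i
    rw [this]
    exact dvd_add h1 h2
  have hCne : ∀ i, (C i).Nonempty := fun i => ⟨b i, by simp [C]⟩
  have hC0 : C 0 ⊆ K := by
    intro y hy
    refine hcon y ?_
    have : ((m * p ^ 0 : ℕ) : ℤ) ∣ y - a := hy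
    simpa using this
  have hCclosed : ∀ i, IsClosed[tau Q] (C i) := fun i => isClosed_coset (hmod i) (b i)
  have hC0c : @IsCompact ℤ (tau Q) (C 0) := by
    let := tau Q
    exact hK.of_isClosed_subset (hCclosed 0) hC0
  have hne : (⋂ i, C i).Nonempty := by
    let := tau Q
    exact IsCompact.nonempty_iInter_of_sequence_nonempty_isCompact_isClosed C hCanti hCne hC0c
      hCclosed
  obtain ⟨z, hz⟩ := hne
  obtain ⟨i, rfl⟩ := he z
  have h1 : e i ∈ C (i + 1) := Set.mem_iInter.1 hz (i + 1)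
  exact (hnx i (b i)).2 h1

/-- There is a sequence in `Q*` that is cofinal for divisibility. -/
theorem exists_cofinal (Q : Set ℕ) :
    ∃ M : ℕ → ℕ, (∀ j, M j ∈ Qstar Q) ∧ ∀ m ∈ Qstar Q, ∀ j, m ≤ j → m ∣ M j := by
  classical
  refine ⟨fun j => ∏ m ∈ (Finset.range (j + 1)).filter (· ∈ Qstar Q), m, fun j => ?_,
    fun m hm j hj => ?_⟩
  · refine Finset.prod_induction _ (· ∈ Qstar Q) (fun a b => mul_mem) (one_mem Q) ?_
    intro m hm
    exact (Finset.mem_filter.1 hm).2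
  · exact Finset.dvd_prod_of_mem (fun m => m)
      (Finset.mem_filter.2 ⟨Finset.mem_range.2 (by omega), hm⟩)

/-- Countably many compact sets do not absorb all compact sets up to translation. -/
theorem exists_compact {Q : Set ℕ} (hQ : Q.Nonempty) (hP : ∀ p ∈ Q, p.Prime) (K : ℕ → Set ℤ)
    (hK : ∀ n, @IsCompact ℤ (tau Q) (K n)) :
    ∃ L : Set ℤ, @IsCompact ℤ (tau Q) L ∧ ∀ (n : ℕ) (k : ℤ), ¬ L ⊆ (fun x => k + x) '' K n := by
  obtain ⟨M, hM, hM'⟩ := exists_cofinal Q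
  obtain ⟨e, he⟩ := exists_surjective_nat (ℕ × ℤ)
  have hx : ∀ j, ∃ x : ℤ, (M j : ℤ) ∣ x ∧ x ∉ (fun x => (e j).2 + x) '' K (e j).1 := by
    intro j
    obtain ⟨x, hx, hx'⟩ := exists_notMem hQ hP (hK (e j).1) (hM j) (-(e j).2)
    refine ⟨x + (e j).2, by simpa [sub_neg_eq_add] using hx, ?_⟩
    rintro ⟨y, hy, hyx⟩
    have : y = x := by
      have : (e j).2 + y = x + (e j).2 := hyx
      omega
    rw [this] at hy
    exact hx' hy
  choose x hx hx' using hx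
  refine ⟨insert 0 (Set.range x), compact_insert_range (tau Q) x 0 ?_, ?_⟩
  · let := tau Q
    rw [tendsto_nhds]
    intro U hU h0
    obtain ⟨m, hm, h⟩ := isOpen_tau.1 hU 0 h0
    filter_upwards [eventually_ge_atTop m] with j hj
    refine h _ ?_
    rw [sub_zero]
    exact (Int.natCast_dvd_natCast.2 (hM' m hm j hj)).trans (hx j)
  · intro n k hsub
    obtain ⟨j, hj⟩ := he (n, k)
    have h1 := hsub (Set.mem_insert_of_mem 0 (Set.mem_range_self j))
    have h2 := hx' j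
    rw [hj] at h2
    exact h2 h1

theorem main {Q : Set ℕ} (hQ : Q.Nonempty) (hP : ∀ p ∈ Q, p.Prime) (S : Set ℤ) :
    ¬ ∃ f : ℤ → ℤ, IsCoarseEquivalence (profinite Q) (cayley S) f := by
  rintro ⟨f, hf, g, hg, hgf, -⟩
  have h1 : ∀ N : ℕ, ∃ K : Set ℤ, @IsCompact ℤ (tau Q) K ∧ ∀ A : Set ℤ,
      (∀ x ∈ A, ∀ y ∈ A, wordDist S x y ≤ (N : ℕ∞)) → ∃ k : ℤ, g '' A ⊆ (fun x => k + x) '' K := by
    intro N
    obtain ⟨K, hK, h⟩ := hg {A | ∀ x ∈ A, ∀ y ∈ A, wordDist S x y ≤ (N : ℕ∞)}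
      ⟨N, fun A hA => hA⟩
    exact ⟨K, hK, fun A hA => h (g '' A) ⟨A, hA, rfl⟩⟩
  choose K hK hKg using h1
  obtain ⟨L, hL, hLgf⟩ := hgf
  obtain ⟨C, hC, hCK⟩ := exists_compact hQ hP (fun n => K n + (L - L))
    fun n => compact_add_sub (tau Q) (isTopologicalAddGroup Q) (hK n) hL
  obtain ⟨N, hN⟩ := hf {C} ⟨C, hC, fun A hA => ⟨0, by rw [hA]; simp⟩⟩
  obtain ⟨k, hk⟩ := hKg N (f '' C) (hN (f '' C) ⟨C, rfl, rfl⟩)
  refine hCK N k fun x hx => ?_
  obtain ⟨y, hy, hyx⟩ := hk ⟨f x, ⟨x, hx, rfl⟩, rfl⟩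
  obtain ⟨l, hl⟩ := hLgf _ ⟨x, rfl⟩
  obtain ⟨u, hu, hu'⟩ := hl (Or.inl rfl : (g ∘ f) x ∈ ({(g ∘ f) x, id x} : Set ℤ))
  obtain ⟨v, hv, hv'⟩ := hl (Or.inr rfl : id x ∈ ({(g ∘ f) x, id x} : Set ℤ))
  refine ⟨y + (v - u), Set.add_mem_add hy (Set.sub_mem_sub hv hu), ?_⟩
  simp only [Function.comp, id] at hyx hu' hv' ⊢
  omega

/-- For every non-empty set of primes `Q` and every `S ⊆ ℤ` the coarse spaces `(ℤ, E_Q)` and
`(ℤ, E_Cay(S))` are not coarsely equivalent, and so the coarse groups are not coarsely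
isomorphic. -/
theorem result (Q : Set ℕ) (hQ : Q.Nonempty) (hP : ∀ p ∈ Q, p.Prime) (S : Set ℤ) :
    (¬ ∃ f : ℤ → ℤ, IsCoarseIsomorphism (profinite Q) (cayley S) f) ∧
    ¬ ∃ f : ℤ → ℤ, IsCoarseEquivalence (profinite Q) (cayley S) f :=
  ⟨fun ⟨f, hf⟩ => main hQ hP S ⟨f, hf.1⟩, main hQ hP S⟩

end Pool.Agent.Results.MP_59b615_al.NotCoarselyEquivalent
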